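import Mathlib

/-!
# Size of pseudoinverse solutions of additive equation systems

Every coordinate of `A† b` is at most `2 ^ (n - 1)` in absolute value.  The proof regularises:
`x_t = (Aᵀ A + t)⁻¹ Aᵀ b` tends to `A† b`, and by Cramer's rule and the Cauchy-Binet formula every
coordinate of `x_t` is a weighted average of the coordinates of the solutions of nonsingular
square systems consisting of `n` equations `x_i = 1`, `x_i + x_j = x_k`, `x_i = 0`; for those
the bound comes from a determinant estimate.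
-/

set_option autoImplicit false

namespace Pool.Agent.Results.MP_b60f31_al.Bound

open Matrix Finset

/-! ### A class of matrices with determinant `0` or `±1` -/

/-- The positive parts of the entries sum to at most `1`, and so do the negative parts. -/
def Good {n : ℕ} (v : Fin n → ℤ) : Prop :=
  ∑ j, max (v j) 0 ≤ 1 ∧ ∑ j, max (-v j) 0 ≤ 1

lemma Good.succAbove {n : ℕ} {v : Fin (n + 1) → ℤ} (h : Good v) (p : Fin (n + 1)) :
    Good fun j => v (p.succAbove j) := by
  obtain ⟨h1, h2⟩ := h
  rw [Fin.sum_univ_succAbove _ p] at h1 h2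
  have h3 : 0 ≤ max (v p) 0 := le_max_right _ _
  have h4 : 0 ≤ max (-v p) 0 := le_max_right _ _
  exact ⟨by linarith, by linarith⟩

lemma abs_det_le_one : ∀ {n : ℕ} (M : Matrix (Fin n) (Fin n) ℤ), (∀ i, Good (M i)) →
    |M.det| ≤ 1 := by
  intro n
  induction n with
  | zero => intro M _; simp
  | succ n ih =>
    intro M hM
    have habs : ∀ i, ∑ j, |M i j| ≤ 1 → |M.det| ≤ 1 := by
      intro i hi
      rw [det_succ_row M i]
      refine (Finset.abs_sum_le_sum_abs _ _).trans (le_trans (Finset.sum_le_sum fun j _ => ?_) hi)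
      have h1 : |(M.submatrix i.succAbove j.succAbove).det| ≤ 1 :=
        ih _ fun k => (hM (i.succAbove k)).succAbove j
      rw [abs_mul, abs_mul, abs_pow, abs_neg, abs_one, one_pow, one_mul]
      exact mul_le_of_le_one_right (abs_nonneg _) h1
    have habs' : ∀ a : ℤ, |a| = max a 0 + max (-a) 0 := by
      intro a
      rcases le_total 0 a with h | h
      · rw [abs_of_nonneg h, max_eq_left h, max_eq_right (by linarith)]; ring
      · rw [abs_of_nonpos h, max_eq_right h, max_eq_left (by linarith)]; ring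
    by_cases hex : ∃ i, ∑ j, max (M i j) 0 ≤ 0 ∨ ∑ j, max (-(M i j)) 0 ≤ 0
    · obtain ⟨i, hi⟩ := hex
      apply habs i
      simp only [habs', Finset.sum_add_distrib]
      have := hM i
      unfold Good at this
      rcases hi with hi | hi
      · linarith [this.2]
      · linarith [this.1]
    · push Not at hex
      have hsum : ∀ i, ∑ j, M i j = 0 := by
        intro i
        have h1 := hM i
        have h2 := hex i
        unfold Good at h1
        have h3 : ∀ a : ℤ, a = max a 0 - max (-a) 0 := by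
          intro a
          rcases le_total 0 a with h | h
          · rw [max_eq_left h, max_eq_right (by linarith)]; ring
          · rw [max_eq_right h, max_eq_left (by linarith)]; ring
        have h4 : ∑ j, M i j = ∑ j, (max (M i j) 0 - max (-(M i j)) 0) :=
          Finset.sum_congr rfl fun j _ => h3 _
        rw [h4, Finset.sum_sub_distrib]
        omega
      have h0 : M.det = 0 := by
        rw [← exists_mulVec_eq_zero_iff]
        refine ⟨fun _ => 1, fun h => ?_, ?_⟩
        · have := congrFun h 0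
          simp at this
        · ext i
          simpa [mulVec, dotProduct] using hsum i
      rw [h0]
      simp

/-- If row `i` is a sum of `c i` good rows, then the determinant is at most `∏ c i`. -/
lemma abs_det_sum_le {n : ℕ} (c : Fin n → ℕ) (g : (i : Fin n) → Fin (c i) → Fin n → ℤ)
    (hg : ∀ i s, Good (g i s)) :
    |(Matrix.of fun i => ∑ s, g i s).det| ≤ ∏ i, (c i : ℤ) := by
  have h1 := (Matrix.detRowAlternating (n := Fin n) (R := ℤ)).toMultilinearMap.map_sum g
  have h2 : (Matrix.of fun i => ∑ s, g i s).det =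
      ∑ r : (i : Fin n) → Fin (c i), (Matrix.of fun i => g i (r i)).det := h1
  rw [h2]
  refine (Finset.abs_sum_le_sum_abs _ _).trans
    ((Finset.sum_le_sum fun r _ => abs_det_le_one _ fun i => hg i (r i)).trans ?_)
  simp

/-! ### The equations -/

/-- The elements of `W_n`: `Sum.inl i` is the equation `x_i = 1`, and `Sum.inr ⟨(i, j, k), _⟩`,
with `i ≤ j`, is the equation `x_i + x_j = x_k`. -/
abbrev Eqn (n : ℕ) : Type := Fin n ⊕ {p : Fin n × Fin n × Fin n // p.1 ≤ p.2.1}

/-- The row of coefficients of an equation: `e_i`, respectively `e_i + e_j - e_k`. -/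
def row {n : ℕ} : Eqn n → Fin n → ℝ
  | Sum.inl i => Pi.single i 1
  | Sum.inr p => Pi.single p.1.1 1 + Pi.single p.1.2.1 1 - Pi.single p.1.2.2 1

/-- The right-hand side of an equation: `1`, respectively `0`. -/
def rhs {n : ℕ} : Eqn n → ℝ
  | Sum.inl _ => 1
  | Sum.inr _ => 0

/-- Integer rows, with the additional equations `x_i = 0`. -/
def zrow {n : ℕ} : Eqn n ⊕ Fin n → Fin n → ℤ
  | Sum.inl (Sum.inl i) => Pi.single i 1
  | Sum.inl (Sum.inr p) => Pi.single p.1.1 1 + Pi.single p.1.2.1 1 - Pi.single p.1.2.2 1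
  | Sum.inr i => Pi.single i 1

/-- Integer right-hand sides. -/
def zrhs {n : ℕ} : Eqn n ⊕ Fin n → ℤ
  | Sum.inl (Sum.inl _) => 1
  | Sum.inl (Sum.inr _) => 0
  | Sum.inr _ => 0

/-- The number of good rows a row is split into. -/
def cnt {n : ℕ} : Eqn n ⊕ Fin n → ℕ
  | Sum.inl (Sum.inl _) => 1
  | Sum.inl (Sum.inr _) => 2
  | Sum.inr _ => 1

/-- The good rows. -/
def part {n : ℕ} (j : Fin n) : (e : Eqn n ⊕ Fin n) → Fin (cnt e) → Fin n → ℤ
  | Sum.inl (Sum.inl i) => fun _ => Function.update (Pi.single i 1) j (-1)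
  | Sum.inl (Sum.inr p) =>
    ![Function.update (Pi.single p.1.1 1 - Pi.single p.1.2.2 1) j 0,
      Function.update (Pi.single p.1.2.1 1) j 0]
  | Sum.inr i => fun _ => Function.update (Pi.single i 1) j 0

lemma good_of_le {n : ℕ} {v p q : Fin n → ℤ} (hp : ∀ j, 0 ≤ p j) (hq : ∀ j, 0 ≤ q j)
    (h1 : ∀ j, v j ≤ p j) (h2 : ∀ j, -v j ≤ q j) (hp1 : ∑ j, p j ≤ 1) (hq1 : ∑ j, q j ≤ 1) :
    Good v :=
  ⟨(Finset.sum_le_sum fun j _ => max_le (h1 j) (hp j)).trans hp1,
    (Finset.sum_le_sum fun j _ => max_le (h2 j) (hq j)).trans hq1⟩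

lemma single_nonneg {n : ℕ} (i j : Fin n) : 0 ≤ (Pi.single i 1 : Fin n → ℤ) j := by
  rw [Pi.single_apply]; split_ifs <;> norm_num

lemma sum_single_le {n : ℕ} (i : Fin n) : ∑ j, (Pi.single i 1 : Fin n → ℤ) j ≤ 1 := by
  rw [Finset.sum_pi_single']; simp

lemma good_part {n : ℕ} (j : Fin n) (e : Eqn n ⊕ Fin n) (s : Fin (cnt e)) :
    Good (part j e s) := by
  rcases e with (i | p) | i
  · refine good_of_le (p := Pi.single i 1) (q := Pi.single j 1) (single_nonneg i)
      (single_nonneg j) (fun k => ?_) (fun k => ?_) (sum_single_le i) (sum_single_le j)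
    · simp only [part, Function.update_apply]
      split_ifs with h
      · exact le_trans (by norm_num) (single_nonneg i k)
      · exact le_rfl
    · simp only [part, Function.update_apply]
      split_ifs with h
      · subst h; simp
      · exact le_trans (neg_nonpos.2 (single_nonneg i k)) (single_nonneg j k)
  · obtain ⟨⟨a, b, c⟩, h⟩ := p
    change Fin 2 at s
    fin_cases s
    · refine good_of_le (p := Pi.single a 1) (q := Pi.single c 1) (single_nonneg a)
        (single_nonneg c) (fun k => ?_) (fun k => ?_) (sum_single_le a) (sum_single_le c)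
      · simp only [part, Fin.zero_eta, cons_val_zero, Function.update_apply, Pi.sub_apply]
        split_ifs with h
        · exact single_nonneg a k
        · linarith [single_nonneg c k]
      · simp only [part, Fin.zero_eta, cons_val_zero, Function.update_apply, Pi.sub_apply]
        split_ifs with h
        · simpa using single_nonneg c k
        · linarith [single_nonneg a k]
    · refine good_of_le (p := Pi.single b 1) (q := 0) (single_nonneg b)
        (fun _ => le_rfl) (fun k => ?_) (fun k => ?_) (sum_single_le b) (by simp)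
      · simp only [part, Fin.mk_one, cons_val_one, cons_val_zero, Function.update_apply]
        split_ifs with h
        · exact single_nonneg b k
        · exact le_rfl
      · simp only [part, Fin.mk_one, cons_val_one, cons_val_zero, Function.update_apply]
        split_ifs with h
        · simp
        · simpa using single_nonneg b k
  · refine good_of_le (p := Pi.single i 1) (q := 0) (single_nonneg i)
      (fun _ => le_rfl) (fun k => ?_) (fun k => ?_) (sum_single_le i) (by simp)
    · simp only [part, Function.update_apply]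
      split_ifs with h
      · exact single_nonneg i k
      · exact le_rfl
    · simp only [part, Function.update_apply]
      split_ifs with h
      · simp
      · simpa using single_nonneg i k

lemma sum_part {n : ℕ} (j : Fin n) (e : Eqn n ⊕ Fin n) :
    ∑ s, part j e s = Function.update (zrow e) j (-zrhs e) := by
  rcases e with (i | p) | i
  · exact Fin.sum_univ_one _
  · obtain ⟨⟨a, b, c⟩, h⟩ := p
    refine (Fin.sum_univ_two _).trans ?_
    ext k
    simp only [part, cons_val_zero, cons_val_one, Pi.add_apply, Function.update_apply, zrow, zrhs,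
      Pi.sub_apply]
    split_ifs
    · simp
    · ring
  · refine (Fin.sum_univ_one _).trans ?_
    simp [part, zrow, zrhs]

/-- Cramer's bound for a square system of `n` equations `x_i = 1`, `x_i + x_j = x_k`,
`x_i = 0`. -/
lemma abs_det_updateCol_le {n : ℕ} (f : Fin n → Eqn n ⊕ Fin n) (j : Fin n) :
    |((Matrix.of fun i => zrow (f i)).updateCol j fun i => zrhs (f i)).det| ≤ 2 ^ (n - 1) := by
  by_cases h0 : ∃ i, zrhs (f i) ≠ 0
  · obtain ⟨i₀, hi₀⟩ := h0
    have h1 : ((Matrix.of fun i => zrow (f i)).updateCol j fun i => -zrhs (f i)).det =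
        -((Matrix.of fun i => zrow (f i)).updateCol j fun i => zrhs (f i)).det := by
      have := det_updateCol_smul (Matrix.of fun i => zrow (f i)) j (-1) (fun i => zrhs (f i))
      rw [neg_one_mul] at this
      rw [← this]
      congr 2
      ext i
      simp
    have h2 : (Matrix.of fun i => zrow (f i)).updateCol j (fun i => -zrhs (f i)) =
        Matrix.of fun i => ∑ s, part j (f i) s := by
      ext i k
      rw [of_apply, sum_part, updateCol_apply, Function.update_apply]
      rfl
    rw [← abs_neg, ← h1, h2]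
    refine (abs_det_sum_le _ _ fun i s => good_part j (f i) s).trans ?_
    rw [← Finset.mul_prod_erase _ _ (Finset.mem_univ i₀)]
    have h3 : cnt (f i₀) = 1 := by
      rcases h : f i₀ with (i | p) | i
      · rfl
      · rw [h] at hi₀; exact absurd rfl hi₀
      · rfl
    rw [h3, Nat.cast_one, one_mul]
    have h4 : ∀ e : Eqn n ⊕ Fin n, (cnt e : ℤ) ≤ 2 := by
      rintro ((i | p) | i) <;> simp [cnt]
    refine (Finset.prod_le_prod (fun i _ => by positivity) fun i _ => h4 (f i)).trans ?_
    rw [Finset.prod_const, Finset.card_erase_of_mem (Finset.mem_univ _), Finset.card_univ,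
      Fintype.card_fin]
  · push Not at h0
    have h1 : ((Matrix.of fun i => zrow (f i)).updateCol j fun i => zrhs (f i)).det = 0 := by
      apply det_eq_zero_of_column_eq_zero j
      intro i
      simp [h0]
    rw [h1]
    simp

/-! ### The Cauchy-Binet formula, as a sum over functions -/

lemma det_mul_eq_sum {n : ℕ} {m : Type*} [Fintype m] (X Y : Matrix m (Fin n) ℝ) :
    (Xᵀ * Y).det = ∑ f : Fin n → m, (∏ i, X (f i) i) * (Y.submatrix f id).det := by
  have h1 := (Matrix.detRowAlternating (n := Fin n) (R := ℝ)).toMultilinearMap.map_sum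
    (fun (i : Fin n) (r : m) => X r i • Y r)
  have h2 : (Xᵀ * Y).det = (Matrix.detRowAlternating (n := Fin n) (R := ℝ)).toMultilinearMap
      (fun i => ∑ r, X r i • Y r) := by
    change (Xᵀ * Y).det = Matrix.det (Matrix.of fun i => ∑ r, X r i • Y r)
    congr 1
    ext i k
    simp [mul_apply]
  rw [h2, h1]
  refine Finset.sum_congr rfl fun f _ => ?_
  rw [MultilinearMap.map_smul_univ]
  rfl

lemma cauchyBinet {n : ℕ} {m : Type*} [Fintype m] (X Y : Matrix m (Fin n) ℝ) :
    (n.factorial : ℝ) * (Xᵀ * Y).det =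
      ∑ f : Fin n → m, (X.submatrix f id).det * (Y.submatrix f id).det := by
  have h1 : ∀ σ : Equiv.Perm (Fin n), (Xᵀ * Y).det = ∑ f : Fin n → m,
      ((Equiv.Perm.sign σ : ℤ) : ℝ) * (∏ i, X (f (σ i)) i) * (Y.submatrix f id).det := by
    intro σ
    rw [det_mul_eq_sum]
    rw [← Equiv.sum_comp (Equiv.arrowCongr σ⁻¹ (Equiv.refl m))]
    refine Finset.sum_congr rfl fun f _ => ?_
    have h2 : (Equiv.arrowCongr σ⁻¹ (Equiv.refl m)) f = f ∘ σ := by
      ext i
      simp [Equiv.arrowCongr]
      rfl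
    rw [h2]
    have h3 : (Y.submatrix (f ∘ σ) id) = (Y.submatrix f id).submatrix σ id := rfl
    rw [h3, det_permute]
    simp only [Function.comp_apply]
    ring
  have h2 : (n.factorial : ℝ) * (Xᵀ * Y).det = ∑ _σ : Equiv.Perm (Fin n), (Xᵀ * Y).det := by
    rw [Finset.sum_const, Finset.card_univ, Fintype.card_perm, Fintype.card_fin, nsmul_eq_mul]
  rw [h2, Finset.sum_congr rfl fun σ _ => h1 σ, Finset.sum_comm]
  refine Finset.sum_congr rfl fun f _ => ?_
  rw [det_apply' (X.submatrix f id), Finset.sum_mul]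
  rfl

/-! ### The regularised system -/

/-- The general bound: if for every choice of `n` rows of `C` the Cramer quotients are bounded by
`K`, then so are the coordinates of the least-squares solution. -/
lemma abs_le_of_rows {n : ℕ} {m : Type*} [Fintype m] (C : Matrix m (Fin n) ℝ) (d : m → ℝ)
    (K : ℝ) (j : Fin n) (hK : ∀ f : Fin n → m, (C.submatrix f id).det ≠ 0 →
      |((C.updateCol j d).submatrix f id).det| ≤ K * |(C.submatrix f id).det|)
    (x : Fin n → ℝ) (hx : (Cᵀ * C) *ᵥ x = Cᵀ *ᵥ d) (hdet : (Cᵀ * C).det ≠ 0) : |x j| ≤ K := by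
  have h1 : ((Cᵀ * C).updateCol j (Cᵀ *ᵥ d)) = Cᵀ * (C.updateCol j d) := by
    ext i k
    rw [updateCol_apply, mul_apply, mul_apply]
    split_ifs with h
    · subst h
      simp [mulVec, dotProduct]
    · simp [h]
  have h2 : (Cᵀ * C).det * x j = (Cᵀ * (C.updateCol j d)).det := by
    rw [← h1, ← cramer_apply, ← hx, cramer_eq_adjugate_mulVec, mulVec_mulVec, adjugate_mul,
      smul_mulVec, one_mulVec, Pi.smul_apply, smul_eq_mul]
  have hfac : (0 : ℝ) < (n.factorial : ℝ) := by exact_mod_cast Nat.factorial_pos n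
  have h3 := cauchyBinet C C
  have h4 := cauchyBinet C (C.updateCol j d)
  have hpos : 0 < (Cᵀ * C).det := by
    have h5 : 0 ≤ (n.factorial : ℝ) * (Cᵀ * C).det := by
      rw [h3]
      exact Finset.sum_nonneg fun f _ => mul_self_nonneg _
    exact lt_of_le_of_ne (nonneg_of_mul_nonneg_right h5 hfac) (Ne.symm hdet)
  have h5 : (n.factorial : ℝ) * |(Cᵀ * (C.updateCol j d)).det| ≤
      K * ((n.factorial : ℝ) * (Cᵀ * C).det) := by
    rw [h3, Finset.mul_sum]
    calc (n.factorial : ℝ) * |(Cᵀ * (C.updateCol j d)).det|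
        = |(n.factorial : ℝ) * (Cᵀ * (C.updateCol j d)).det| := by
          rw [abs_mul, abs_of_pos hfac]
      _ = |∑ f : Fin n → m, (C.submatrix f id).det * ((C.updateCol j d).submatrix f id).det| := by
          rw [h4]
      _ ≤ ∑ f : Fin n → m, |(C.submatrix f id).det * ((C.updateCol j d).submatrix f id).det| :=
          Finset.abs_sum_le_sum_abs _ _
      _ ≤ _ := Finset.sum_le_sum fun f _ => by
          rw [abs_mul]
          have h6 : |(C.submatrix f id).det| * |((C.updateCol j d).submatrix f id).det| ≤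
              |(C.submatrix f id).det| * (K * |(C.submatrix f id).det|) := by
            by_cases h0 : (C.submatrix f id).det = 0
            · simp [h0]
            · exact mul_le_mul_of_nonneg_left (hK f h0) (abs_nonneg ((C.submatrix f id).det))
          refine h6.trans (le_of_eq ?_)
          rw [← abs_mul_abs_self ((C.submatrix f id).det)]
          ring
  rw [← h2, abs_mul, abs_of_pos hpos] at h5
  have h7 : (n.factorial : ℝ) * (Cᵀ * C).det * |x j| ≤ (n.factorial : ℝ) * (Cᵀ * C).det * K := by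
    linarith
  exact le_of_mul_le_mul_left h7 (mul_pos hfac hpos)

/-- The matrix `A` of the system `S`; its rows are indexed by the equations in `S`. -/
def matA {n : ℕ} (S : Finset (Eqn n)) : Matrix S (Fin n) ℝ := Matrix.of fun e => row e.1

/-- The right-hand side `b` of the system `S`. -/
def vecb {n : ℕ} (S : Finset (Eqn n)) : S → ℝ := fun e => rhs e.1

/-- The regularised matrix `[A; √t]`. -/
noncomputable def matC {n : ℕ} (S : Finset (Eqn n)) (t : ℝ) : Matrix (S ⊕ Fin n) (Fin n) ℝ :=
  fromRows (matA S) (Real.sqrt t • (1 : Matrix (Fin n) (Fin n) ℝ))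

/-- The regularised right-hand side. -/
def vecd {n : ℕ} (S : Finset (Eqn n)) : S ⊕ Fin n → ℝ := Sum.elim (vecb S) 0

/-- The weights of the rows. -/
noncomputable def wt {n : ℕ} (S : Finset (Eqn n)) (t : ℝ) : S ⊕ Fin n → ℝ :=
  Sum.elim (fun _ => 1) (fun _ => Real.sqrt t)

lemma matC_apply {n : ℕ} (S : Finset (Eqn n)) (t : ℝ) (r : S ⊕ Fin n) (k : Fin n) :
    matC S t r k = wt S t r * (zrow (Sum.map Subtype.val id r) k : ℝ) := by
  rcases r with ⟨(i | p), he⟩ | i
  · simp [matC, wt, matA, row, zrow, Pi.single_apply]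
  · simp [matC, wt, matA, row, zrow, Pi.single_apply]
  · simp [matC, wt, zrow, Pi.single_apply, one_apply, eq_comm]

lemma vecd_apply {n : ℕ} (S : Finset (Eqn n)) (t : ℝ) (r : S ⊕ Fin n) :
    vecd S r = wt S t r * (zrhs (Sum.map Subtype.val id r) : ℝ) := by
  rcases r with ⟨(i | p), he⟩ | i
  · simp [vecd, wt, vecb, rhs, zrhs]
  · simp [vecd, wt, vecb, rhs, zrhs]
  · simp [vecd, zrhs]

lemma rows_bound {n : ℕ} (S : Finset (Eqn n)) (t : ℝ) (j : Fin n) (f : Fin n → S ⊕ Fin n)
    (h0 : ((matC S t).submatrix f id).det ≠ 0) :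
    |(((matC S t).updateCol j (vecd S)).submatrix f id).det| ≤
      2 ^ (n - 1) * |((matC S t).submatrix f id).det| := by
  set Z : Matrix (Fin n) (Fin n) ℤ := Matrix.of fun i => zrow (Sum.map Subtype.val id (f i))
    with hZ
  set z : Fin n → ℤ := fun i => zrhs (Sum.map Subtype.val id (f i)) with hz
  have e1 : (matC S t).submatrix f id =
      diagonal (fun i => wt S t (f i)) * (Int.castRingHom ℝ).mapMatrix Z := by
    ext i k
    rw [submatrix_apply, diagonal_mul, matC_apply]
    simp [hZ]
  have e2 : ((matC S t).updateCol j (vecd S)).submatrix f id =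
      diagonal (fun i => wt S t (f i)) * (Int.castRingHom ℝ).mapMatrix (Z.updateCol j z) := by
    ext i k
    rw [submatrix_apply, diagonal_mul, updateCol_apply, RingHom.mapMatrix_apply, map_apply,
      updateCol_apply]
    simp only [id_eq]
    split_ifs with h
    · rw [vecd_apply S t]
      simp [hz]
    · rw [matC_apply]
      simp [hZ]
  rw [e1] at h0 ⊢
  rw [e2]
  rw [det_mul, det_mul, ← RingHom.map_det, ← RingHom.map_det, abs_mul, abs_mul] at *
  have h1 : Z.det ≠ 0 := by
    rintro h
    rw [h] at h0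
    simp at h0
  have h2 : (1 : ℝ) ≤ |(Int.castRingHom ℝ) Z.det| := by
    rw [eq_intCast, ← Int.cast_abs]
    exact_mod_cast Int.one_le_abs h1
  have h3 : |(Int.castRingHom ℝ) (Z.updateCol j z).det| ≤ 2 ^ (n - 1) := by
    rw [eq_intCast, ← Int.cast_abs]
    exact_mod_cast abs_det_updateCol_le (fun i => Sum.map Subtype.val id (f i)) j
  have h4 : (0 : ℝ) ≤ |(diagonal fun i => wt S t (f i)).det| := abs_nonneg _
  calc |(diagonal fun i => wt S t (f i)).det| * |(Int.castRingHom ℝ) (Z.updateCol j z).det|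
      ≤ |(diagonal fun i => wt S t (f i)).det| * 2 ^ (n - 1) :=
        mul_le_mul_of_nonneg_left h3 h4
    _ ≤ |(diagonal fun i => wt S t (f i)).det| * 2 ^ (n - 1) *
        |(Int.castRingHom ℝ) Z.det| :=
        le_mul_of_one_le_right (mul_nonneg h4 (by positivity)) h2
    _ = _ := by ring

/-! ### The Moore-Penrose pseudoinverse -/

/-- `B` is the Moore-Penrose pseudoinverse of the real matrix `A` (the four Penrose
conditions). -/
def IsPseudoinverse {m n : Type*} [Fintype m] [Fintype n] (A : Matrix m n ℝ)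
    (B : Matrix n m ℝ) : Prop :=
  A * B * A = A ∧ B * A * B = B ∧ (A * B)ᵀ = A * B ∧ (B * A)ᵀ = B * A

/-- Every real matrix has a Moore-Penrose pseudoinverse. -/
lemma exists_isPseudoinverse {m n : Type*} [Fintype m] [Fintype n] [DecidableEq n]
    (A : Matrix m n ℝ) : ∃ B : Matrix n m ℝ, IsPseudoinverse A B := by
  have hG : (Aᵀ * A).IsHermitian := by
    have := isHermitian_conjTranspose_mul_self A
    simpa using this
  obtain ⟨U, D, hU, hU', hD⟩ : ∃ (U : Matrix n n ℝ) (D : n → ℝ), U * Uᵀ = 1 ∧ Uᵀ * U = 1 ∧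
      Aᵀ * A = U * diagonal D * Uᵀ := by
    have hstar : star (hG.eigenvectorUnitary : Matrix n n ℝ) =
        (hG.eigenvectorUnitary : Matrix n n ℝ)ᵀ := by
      rw [star_eq_conjTranspose, conjTranspose_eq_transpose_of_trivial]
    refine ⟨(hG.eigenvectorUnitary : Matrix n n ℝ), hG.eigenvalues, ?_, ?_, ?_⟩
    · rw [← hstar]
      exact Unitary.coe_mul_star_self hG.eigenvectorUnitary
    · rw [← hstar]
      exact Unitary.coe_star_mul_self hG.eigenvectorUnitary
    · have := hG.spectral_theorem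
      rw [Unitary.conjStarAlgAut_apply, ← Unitary.coe_star, Unitary.coe_star, hstar] at this
      exact this
  set P := U * diagonal (fun i => (D i)⁻¹) * Uᵀ with hP
  set G := Aᵀ * A with hGdef
  have hDD : ∀ i, D i * (D i)⁻¹ * D i = D i := fun i => by
    by_cases h : D i = 0
    · simp [h]
    · field_simp
  have hDD' : ∀ i, (D i)⁻¹ * D i * (D i)⁻¹ = (D i)⁻¹ := fun i => by
    by_cases h : D i = 0
    · simp [h]
    · field_simp
  have mulU : ∀ a b : n → ℝ, U * diagonal a * Uᵀ * (U * diagonal b * Uᵀ) =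
      U * diagonal (fun i => a i * b i) * Uᵀ := by
    intro a b
    calc U * diagonal a * Uᵀ * (U * diagonal b * Uᵀ)
        = U * diagonal a * (Uᵀ * U) * diagonal b * Uᵀ := by simp only [Matrix.mul_assoc]
      _ = _ := by rw [hU', Matrix.mul_one, Matrix.mul_assoc U, diagonal_mul_diagonal]
  have trU : ∀ a : n → ℝ, (U * diagonal a * Uᵀ)ᵀ = U * diagonal a * Uᵀ := by
    intro a
    rw [transpose_mul, transpose_mul, transpose_transpose, diagonal_transpose, Matrix.mul_assoc]
  have hPG : P * G = U * diagonal (fun i => (D i)⁻¹ * D i) * Uᵀ := by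
    rw [hP, hD, mulU]
  have hPGP : P * G * P = P := by
    rw [hPG, hP, mulU]
    simp only [hDD']
  have hGPG : G * P * G = G := by
    rw [hP, hD, mulU, mulU]
    simp only [hDD]
  have hPGt : (P * G)ᵀ = P * G := by rw [hPG, trU]
  have hPt : Pᵀ = P := trU _
  have hAPG : A * (P * G) = A := by
    have h1 : (A * (1 - P * G))ᵀ * (A * (1 - P * G)) = 0 := by
      calc (A * (1 - P * G))ᵀ * (A * (1 - P * G))
          = (1 - P * G)ᵀ * (G * (1 - P * G)) := by
            rw [transpose_mul, hGdef]; simp only [Matrix.mul_assoc]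
        _ = 0 := by
          rw [Matrix.mul_sub, Matrix.mul_one, ← Matrix.mul_assoc G, hGPG, sub_self,
            Matrix.mul_zero]
    have h2 : A * (1 - P * G) = 0 := by
      have h3 := (conjTranspose_mul_self_eq_zero (A := A * (1 - P * G))).1
      rw [conjTranspose_eq_transpose_of_trivial] at h3
      exact h3 h1
    rw [Matrix.mul_sub, Matrix.mul_one, sub_eq_zero] at h2
    exact h2.symm
  refine ⟨P * Aᵀ, ?_, ?_, ?_, ?_⟩
  · rw [Matrix.mul_assoc, Matrix.mul_assoc P, ← hGdef]
    exact hAPG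
  · rw [Matrix.mul_assoc P Aᵀ A, ← hGdef, ← Matrix.mul_assoc, hPGP]
  · rw [transpose_mul, transpose_mul, transpose_transpose, hPt, Matrix.mul_assoc]
  · rw [Matrix.mul_assoc, ← hGdef, hPGt]

/-- If `B` is the pseudoinverse of `A`, then `B = Aᵀ A (B Bᵀ B)` and `Aᵀ A B = Aᵀ`. -/
lemma IsPseudoinverse.eqs {m n : Type*} [Fintype m] [Fintype n] {A : Matrix m n ℝ}
    {B : Matrix n m ℝ} (h : IsPseudoinverse A B) :
    B = Aᵀ * A * (B * Bᵀ * B) ∧ Aᵀ * A * B = Aᵀ := by
  obtain ⟨h1, h2, h3, h4⟩ := h
  have h5 : Aᵀ * A * B = Aᵀ := by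
    calc Aᵀ * A * B = Aᵀ * (A * B)ᵀ := by rw [h3, Matrix.mul_assoc]
      _ = (A * B * A)ᵀ := by rw [← transpose_mul]
      _ = Aᵀ := by rw [h1]
  refine ⟨?_, h5⟩
  calc B = (B * A) * B := h2.symm
    _ = (B * A)ᵀ * B := by rw [h4]
    _ = Aᵀ * Bᵀ * B := by rw [transpose_mul]
    _ = (Aᵀ * A * B) * Bᵀ * B := by rw [h5]
    _ = _ := by simp only [Matrix.mul_assoc]

/-- For every system `S ⊆ W_n`, the matrix `A` of `S` has a Moore-Penrose pseudoinverse, and for
the pseudoinverse `B = A†` of `A` every coordinate of `A† b` lies in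
`[-2 ^ (n - 1), 2 ^ (n - 1)]`. -/
theorem result (n : ℕ) (S : Finset (Eqn n)) :
    (∃ B : Matrix (Fin n) S ℝ, IsPseudoinverse (matA S) B) ∧
      ∀ B : Matrix (Fin n) S ℝ, IsPseudoinverse (matA S) B →
        ∀ j : Fin n, |(B *ᵥ vecb S) j| ≤ 2 ^ (n - 1) := by
  refine ⟨exists_isPseudoinverse _, fun B hB j => ?_⟩
  obtain ⟨h1, h2⟩ := hB.eqs
  set A := matA S with hA
  set b := vecb S with hb
  set x₀ := B *ᵥ b with hx₀
  set u := (B * Bᵀ * B) *ᵥ b with hu
  have hxu : x₀ = (Aᵀ * A) *ᵥ u := by
    rw [hu, mulVec_mulVec, ← h1]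
  have hN : (Aᵀ * A) *ᵥ x₀ = Aᵀ *ᵥ b := by
    rw [hx₀, mulVec_mulVec, h2]
  -- the regularised solutions
  have key : ∀ t : ℝ, 0 < t → |x₀ j| ≤ 2 ^ (n - 1) + 2 * t * Real.sqrt (u ⬝ᵥ u) := by
    intro t ht
    have hC : (matC S t)ᵀ * matC S t = Aᵀ * A + t • (1 : Matrix (Fin n) (Fin n) ℝ) := by
      rw [matC, transpose_fromRows, fromCols_mul_fromRows, transpose_smul, transpose_one,
        Matrix.smul_mul, Matrix.one_mul, smul_smul, Real.mul_self_sqrt ht.le]
    have hCd : (matC S t)ᵀ *ᵥ vecd S = Aᵀ *ᵥ b := by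
      rw [matC, transpose_fromRows, vecd, fromCols_mulVec_sumElim, mulVec_zero, add_zero]
    have hquad : ∀ v : Fin n → ℝ, v ⬝ᵥ ((Aᵀ * A + t • (1 : Matrix (Fin n) (Fin n) ℝ)) *ᵥ v) =
        (A *ᵥ v) ⬝ᵥ (A *ᵥ v) + t * (v ⬝ᵥ v) := by
      intro v
      rw [add_mulVec, dotProduct_add, smul_mulVec, one_mulVec, dotProduct_smul, smul_eq_mul,
        ← mulVec_mulVec, dotProduct_mulVec, vecMul_transpose]
    have hdet : ((matC S t)ᵀ * matC S t).det ≠ 0 := by
      intro h0
      rw [hC] at h0
      obtain ⟨v, hv, hv'⟩ := exists_mulVec_eq_zero_iff.2 h0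
      have h3 := hquad v
      rw [hv', dotProduct_zero] at h3
      have h4 : 0 ≤ (A *ᵥ v) ⬝ᵥ (A *ᵥ v) := Finset.sum_nonneg fun i _ => mul_self_nonneg _
      have h5 : 0 < v ⬝ᵥ v := lt_of_le_of_ne (Finset.sum_nonneg fun i _ => mul_self_nonneg _)
        (Ne.symm (mt dotProduct_self_eq_zero.1 hv))
      nlinarith
    set M := Aᵀ * A + t • (1 : Matrix (Fin n) (Fin n) ℝ) with hM
    set v := M⁻¹ *ᵥ u with hv
    have hMv : M *ᵥ v = u := by
      rw [hC] at hdet
      rw [hv, mulVec_mulVec, mul_nonsing_inv _ (isUnit_iff_ne_zero.2 hdet), one_mulVec]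
    have hMx : ∀ w, M *ᵥ w = (Aᵀ * A) *ᵥ w + t • w := by
      intro w
      rw [hM, add_mulVec, smul_mulVec, one_mulVec]
    have hsol : ((matC S t)ᵀ * matC S t) *ᵥ (x₀ - t • u + (t * t) • v) =
        (matC S t)ᵀ *ᵥ vecd S := by
      rw [hC, hCd, mulVec_add, mulVec_sub, mulVec_smul, mulVec_smul, hMv, hMx x₀, hMx u, hN, hxu]
      module
    have hb1 := abs_le_of_rows (matC S t) (vecd S) (2 ^ (n - 1)) j
      (fun f h0 => rows_bound S t j f h0) _ hsol hdet
    -- the error terms
    have hq := hquad v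
    rw [hMv] at hq
    have h4 : 0 ≤ (A *ᵥ v) ⬝ᵥ (A *ᵥ v) := Finset.sum_nonneg fun i _ => mul_self_nonneg _
    have h5 : 0 ≤ (u - t • v) ⬝ᵥ (u - t • v) := Finset.sum_nonneg fun i _ => mul_self_nonneg _
    have h6 : (u - t • v) ⬝ᵥ (u - t • v) = u ⬝ᵥ u - 2 * t * (v ⬝ᵥ u) + t * t * (v ⬝ᵥ v) := by
      simp only [sub_dotProduct, dotProduct_sub, smul_dotProduct, dotProduct_smul, smul_eq_mul]
      rw [dotProduct_comm u v]
      ring
    have h7 : t * t * (v ⬝ᵥ v) ≤ u ⬝ᵥ u := by
      have h8 : t * (t * (v ⬝ᵥ v)) ≤ t * (v ⬝ᵥ u) :=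
        mul_le_mul_of_nonneg_left (by linarith) ht.le
      nlinarith
    have hle : ∀ w : Fin n → ℝ, w j * w j ≤ w ⬝ᵥ w := fun w =>
      Finset.single_le_sum (f := fun i => w i * w i) (fun i _ => mul_self_nonneg (w i))
        (Finset.mem_univ j)
    have h9 : |u j| ≤ Real.sqrt (u ⬝ᵥ u) := Real.abs_le_sqrt (by rw [sq]; exact hle u)
    have h10 : |t * v j| ≤ Real.sqrt (u ⬝ᵥ u) := by
      apply Real.abs_le_sqrt
      have := mul_le_mul_of_nonneg_left (hle v) (mul_self_nonneg t)
      calc (t * v j) ^ 2 = t * t * (v j * v j) := by ring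
        _ ≤ _ := this.trans h7
    have h11 : x₀ j = (x₀ - t • u + (t * t) • v) j + (t * u j - t * (t * v j)) := by
      simp only [Pi.add_apply, Pi.sub_apply, Pi.smul_apply, smul_eq_mul]
      ring
    rw [h11]
    refine (abs_add_le _ _).trans (add_le_add hb1 ((abs_sub _ _).trans ?_))
    rw [abs_mul, abs_mul, abs_of_pos ht]
    nlinarith [Real.sqrt_nonneg (u ⬝ᵥ u)]
  refine le_of_forall_pos_le_add fun ε hε => ?_
  have hR : 0 ≤ Real.sqrt (u ⬝ᵥ u) := Real.sqrt_nonneg _
  refine (key (ε / (2 * Real.sqrt (u ⬝ᵥ u) + 1)) (by positivity)).trans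
    (add_le_add le_rfl ?_)
  rw [mul_div_assoc', div_mul_eq_mul_div, div_le_iff₀ (by positivity)]
  nlinarith

end Pool.Agent.Results.MP_b60f31_al.Bound
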